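import Pool.Agent.K7.H69.LC.Stm

/-!
# Lucky cars in Stirling permutations: the closed form of the diagonal
-/

set_option autoImplicit false

namespace Pool.Agent.K7.H69.LC

open Finset

/-- the central coefficient of the closed forms -/
def cc (m a : ℕ) : ℚ := ((2 * m + a).choose m : ℚ)

/-- the partial row sum of the closed forms -/
def ss (m a : ℕ) : ℚ := ∑ i ∈ range m, ((2 * m + a).choose i : ℚ)

theorem cc_one (m a : ℕ) : cc (m + 1) a = cc m (a + 2) * (m + a + 2) / (m + 1) := by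
  have h := Nat.choose_succ_right_eq (2 * m + a + 2) m
  have e : 2 * m + a + 2 - m = m + a + 2 := by omega
  rw [e] at h
  have h' : (((2 * m + a + 2).choose (m + 1) : ℕ) : ℚ) * (m + 1) =
      ((2 * m + a + 2).choose m : ℕ) * (m + a + 2) := by exact_mod_cast h
  have h0 : (m : ℚ) + 1 ≠ 0 := by positivity
  rw [eq_div_iff h0]
  unfold cc
  rw [show 2 * (m + 1) + a = 2 * m + a + 2 by ring, show 2 * m + (a + 2) = 2 * m + a + 2 by ring]
  exact h'

theorem cc_up (m a : ℕ) : cc m (a + 1) = cc m a * (2 * m + a + 1) / (m + a + 1) := by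
  have h := Nat.choose_mul_succ_eq (2 * m + a) m
  have e : 2 * m + a + 1 - m = m + a + 1 := by omega
  rw [e] at h
  have h' : (((2 * m + a).choose m : ℕ) : ℚ) * (2 * m + a + 1) =
      ((2 * m + a + 1).choose m : ℕ) * (m + a + 1) := by exact_mod_cast h
  have h0 : (m : ℚ) + a + 1 ≠ 0 := by positivity
  rw [eq_div_iff h0]
  unfold cc
  rw [show 2 * m + (a + 1) = 2 * m + a + 1 by ring]
  exact h'.symm

theorem ss_up (m a : ℕ) : ss m (a + 1) = 2 * ss m a - (if m = 0 then 0 else cc m a * m / (m + a + 1)) := by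
  rcases m with _ | m
  · simp [ss]
  · unfold ss
    rw [show 2 * (m + 1) + (a + 1) = (2 * (m + 1) + a) + 1 by ring, sum_range_succ']
    have h1 : ∀ i ∈ range m, (((2 * (m + 1) + a + 1).choose (i + 1) : ℕ) : ℚ) =
        ((2 * (m + 1) + a).choose i : ℕ) + ((2 * (m + 1) + a).choose (i + 1) : ℕ) := by
      intro i _
      rw [Nat.choose_succ_succ]
      push_cast
      ring
    rw [sum_congr rfl h1, sum_add_distrib]
    have h2 := sum_range_succ' (fun i => (((2 * (m + 1) + a).choose i : ℕ) : ℚ)) m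
    have h3 := sum_range_succ (fun i => (((2 * (m + 1) + a).choose i : ℕ) : ℚ)) m
    have h4 : cc (m + 1) a * ((m + 1 : ℕ) : ℚ) / (((m + 1 : ℕ) : ℚ) + a + 1) =
        (((2 * (m + 1) + a).choose m : ℕ) : ℚ) := by
      have h := Nat.choose_succ_right_eq (2 * (m + 1) + a) m
      have e : 2 * (m + 1) + a - m = m + a + 2 := by omega
      rw [e] at h
      have h' : (((2 * (m + 1) + a).choose (m + 1) : ℕ) : ℚ) * (m + 1) =
        ((2 * (m + 1) + a).choose m : ℕ) * (m + a + 2) := by exact_mod_cast h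
      have h0 : ((m + 1 : ℕ) : ℚ) + a + 1 ≠ 0 := by positivity
      rw [div_eq_iff h0]
      unfold cc
      push_cast
      push_cast at h'
      linarith
    rw [if_neg (by omega), h4]
    simp only [Nat.choose_zero_right] at h2 ⊢
    linarith

theorem ss_one (m a : ℕ) : ss (m + 1) a = ss m (a + 2) + cc m (a + 2) := by
  unfold ss cc
  rw [sum_range_succ, show 2 * (m + 1) + a = 2 * m + (a + 2) by ring]

/-- Closed form of `L`. -/
theorem L_closed (m a : ℕ) : (L m a : ℚ) = cc m a * (a + 1) / (m + a + 1) := by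
  induction m generalizing a with
  | zero =>
    have h0 : ((0 : ℕ) : ℚ) + a + 1 ≠ 0 := by positivity
    rw [eq_div_iff h0]
    simp [L, cc]
  | succ m ih =>
    induction a with
    | zero =>
      have : (L (m + 1) 0 : ℚ) = L m 1 := by simp [L]
      rw [this, ih, cc_one, cc_up m 1]
      push_cast
      field_simp
      ring
    | succ a iha =>
      have : (L (m + 1) (a + 1) : ℚ) = L (m + 1) a + L m (a + 2) := by
        simp only [L]
        rw [sum_range_succ]
        push_cast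
        ring
      rw [this, iha, ih, cc_one, cc_one, cc_up m (a + 2)]
      push_cast
      field_simp
      ring

/-- first auxiliary closed form -/
def XX (m a : ℕ) : ℚ := (a + 1) * ss m a + cc m a * (((m : ℚ) ^ 2 - m) / 2 +
  (1 - (m : ℚ) ^ 2) * m / (m + a + 1) +
  m * (m - 1) * (m + 1) * (m + 2) / (2 * (m + a + 1) * (m + a + 2)))

/-- second auxiliary closed form -/
def YY (m a : ℕ) : ℚ := ss m a * (-3 + 16 / 3 * (m : ℚ) + 2 * (m : ℚ) ^ 2 - 4 / 3 * (m : ℚ) ^ 3
    - 13 / 6 * (2 * m + a) - 3 * (2 * m + a) * m + 2 * (2 * m + a) * (m : ℚ) ^ 2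
    + (2 * (m : ℚ) + a) ^ 2 - (2 * (m : ℚ) + a) ^ 2 * m + (2 * (m : ℚ) + a) ^ 3 / 6)
  + cc m a * ((7 / 2 * (m : ℚ) + 3 / 2 * (m : ℚ) ^ 2 - 4 / 3 * (m : ℚ) ^ 3
    - (2 * m + a) * m / 2 + (2 * m + a) * (m : ℚ) ^ 2 - (2 * (m : ℚ) + a) ^ 2 * m / 6)
    + (-2 - 13 / 6 * (m : ℚ) + (m : ℚ) ^ 2 / 2 - (m : ℚ) ^ 3 / 3) * m / (m + a + 1)
    + (-2 - 7 / 3 * (m : ℚ) + (m : ℚ) ^ 3 / 3) * m * (m - 1) / ((m + a + 1) * (m + a + 2)))

/-- the sum over a lucky insertion -/
def HH (m a l : ℕ) : ℕ := ∑ g ∈ range (a + 1), G m (g + 1) (a - g) (l + 2)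

/-- the double sum of the recursion -/
def DD (m a : ℕ) : ℕ := ∑ g ∈ range (a + 1), ∑ c ∈ range (a - g), L m (g + 2 + c)

theorem DD_succ (m a : ℕ) : DD m (a + 1) = DD m a + (a + 1) * L m (a + 2) := by
  unfold DD
  rw [sum_range_succ]
  have h1 : ∀ g ∈ range (a + 1), ∑ c ∈ range (a + 1 - g), L m (g + 2 + c) =
      ∑ c ∈ range (a - g), L m (g + 2 + c) + L m (a + 2) := by
    intro g hg
    rw [mem_range] at hg
    rw [show a + 1 - g = (a - g) + 1 by omega, sum_range_succ,
      show g + 2 + (a - g) = a + 2 by omega]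
  rw [sum_congr rfl h1, sum_add_distrib, sum_const, card_range]
  simp

theorem HH_rec (m a l : ℕ) : HH (m + 1) a l = (∑ g ∈ range (a + 1), HH m (g + 1) (l + 2)) +
    DD m a + (a + 1) * ((l + 1 - a) * L m (a + 2)) := by
  unfold HH DD
  have h1 : ∀ g ∈ range (a + 1), G (m + 1) (g + 1) (a - g) (l + 2) =
      (∑ g' ∈ range (g + 1 + 1), G m (g' + 1) (g + 1 - g') (l + 2 + 2)) +
      (∑ c ∈ range (a - g), L m (g + 2 + c)) + (l + 1 - a) * L m (a + 2) := by
    intro g hg
    rw [mem_range] at hg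
    simp only [G]
    rw [show g + 1 + 1 = g + 2 by ring, show g + 1 + (a - g) + 1 = a + 2 by omega,
      show l + 2 - (g + 1) - (a - g) = l + 1 - a by omega]
  rw [sum_congr rfl h1, sum_add_distrib, sum_add_distrib, sum_const, card_range]
  simp

theorem HH_zero (m l : ℕ) : (HH (m + 1) 0 l : ℚ) = HH m 1 (l + 2) + (l + 1) * L m 2 := by
  rw [HH_rec]
  simp [DD]

theorem HH_succ (m a l : ℕ) (h : a ≤ l) : (HH (m + 1) (a + 1) l : ℚ) = HH (m + 1) a l +
    HH m (a + 2) (l + 2) + (l - a) * ((a + 2) * L m (a + 3) - (a + 1) * L m (a + 2)) := by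
  rw [HH_rec, HH_rec, DD_succ, sum_range_succ]
  obtain ⟨k, rfl⟩ := Nat.exists_eq_add_of_le h
  rw [show a + k + 1 - (a + 1) = k by omega, show a + k + 1 - a = k + 1 by omega]
  push_cast
  ring

theorem ss_up' (m a : ℕ) : ss m (a + 1) = 2 * ss m a - cc m a * m / (m + a + 1) := by
  rw [ss_up]
  split_ifs with h
  · subst h
    simp
  · rfl

theorem HH_closed (m : ℕ) : ∀ a N : ℕ, a ≤ N →
    (HH m a (2 * N) : ℚ) = (2 * ((N : ℚ) + m) + 1) * XX m a - YY m a := by
  induction m with
  | zero =>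
    intro a N _
    simp [HH, G, XX, YY, ss]
  | succ m ih =>
    intro a N
    induction a with
    | zero =>
      intro _
      have h := HH_zero m (2 * N)
      rw [show 2 * N + 2 = 2 * (N + 1) by ring, ih 1 (N + 1) (by omega), L_closed] at h
      rw [h]
      unfold XX YY
      rw [cc_one, ss_one, cc_up m 1, ss_up' m 1]
      push_cast
      field_simp
      ring
    | succ a iha =>
      intro ha
      have h := HH_succ m a (2 * N) (by omega)
      rw [show 2 * N + 2 = 2 * (N + 1) by ring, iha (by omega), ih (a + 2) (N + 1) (by omega),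
        L_closed, L_closed] at h
      rw [h]
      unfold XX YY
      rw [cc_one m a, ss_one m a, cc_one m (a + 1), ss_one m (a + 1), cc_up m (a + 2),
        ss_up' m (a + 2)]
      push_cast
      field_simp
      ring

theorem stAlg : StAlg := by
  intro n
  have h : (G n 1 0 2 : ℚ) = (2 * (((0 : ℕ) : ℚ) + n) + 1) * XX n 0 - YY n 0 := by
    rw [← HH_closed n 0 0 le_rfl]
    simp [HH]
  have hs : ss n 0 = (4 ^ n - cc n 0) / 2 := by
    have h1 := ss_up' n 0
    have h2 : ss n 1 + cc n 1 = 4 ^ n := by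
      unfold ss cc
      rw [← sum_range_succ]
      exact_mod_cast Nat.sum_range_choose_halfway n
    rw [cc_up] at h2
    rw [show (0 + 1 : ℕ) = 1 by rfl] at h1
    rw [h1] at h2
    field_simp at h2 ⊢
    push_cast at h2 ⊢
    nlinarith [h2]
  have hc : (((2 * (n + 1)).choose (n + 1) : ℕ) : ℚ) = cc n 0 * (2 * (2 * n + 1)) / (n + 1) := by
    have e : (((2 * (n + 1)).choose (n + 1) : ℕ) : ℚ) = cc (n + 1) 0 := by simp [cc]
    rw [e, cc_one, cc_up n 1, cc_up n 0]
    push_cast
    field_simp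
    ring
  have key : (8 : ℚ) * G n 1 0 2 + 4 * (n + 2) * (((2 * (n + 1)).choose (n + 1) : ℕ) : ℚ) =
      (n + 4) * 4 ^ (n + 1) := by
    rw [h, hc]
    unfold XX YY
    rw [hs]
    push_cast
    field_simp
    ring
  exact_mod_cast key

end Pool.Agent.K7.H69.LC
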