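import Mathlib

/-!
# Lucky cars in Stirling permutations: statements (project LC, MP_d4a4cd_co)
-/

set_option autoImplicit false

namespace Pool.Agent.K7.H69.LC

/-- The first free spot at or after `p`, when the spots of `occ` are occupied. -/
noncomputable def spot (occ : Finset ℕ) (p : ℕ) : ℕ := sInf {s : ℕ | p ≤ s ∧ s ∉ occ}

/-- Number of lucky cars (cars parking at their preferred spot) when the cars with preference list
`w` arrive one after the other at a street whose spots in `occ` are occupied. -/
noncomputable def lucky : Finset ℕ → List ℕ → ℕ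
  | _, [] => 0
  | occ, p :: w => (if spot occ p = p then 1 else 0) + lucky (insert (spot occ p) occ) w

/-- `w` is a Stirling permutation of order `n`. -/
def IsStirling (n : ℕ) (w : List ℕ) : Prop :=
  (∀ i, w.count i = if 1 ≤ i ∧ i ≤ n then 2 else 0) ∧
  ∀ (u v t : List ℕ) (i : ℕ), w = u ++ i :: (v ++ i :: t) → ∀ j ∈ v, i < j

/-- Two adjacent copies of `x` inserted after the first `g` letters. -/
def put (x g : ℕ) (w : List ℕ) : List ℕ := w.take g ++ x :: x :: w.drop g

/-- Parking on the spots `≤ m` only: `true` if the car parks there, `false` if it overflows. -/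
noncomputable def code (m : ℕ) : Finset ℕ → List ℕ → List Bool
  | _, [] => []
  | A, p :: w =>
    if spot A p ≤ m then true :: code m (insert (spot A p) A) w else false :: code m A w

/-- The first `false` is replaced by `true`. -/
def fix : List Bool → List Bool
  | [] => []
  | true :: c => true :: fix c
  | false :: c => true :: c

/-- Effect of `put` on codes. -/
def ins (c : List Bool) (g : ℕ) : List Bool :=
  if (c.take g).all id then c.take g ++ true :: false :: c.drop g
  else fix (c.take g) ++ false :: false :: c.drop g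

/-- Number of sequences of `m` insertions with exactly `u` unlucky ones. -/
def W : ℕ → ℕ → List Bool → ℕ
  | 0, 0, _ => 1
  | 0, _ + 1, _ => 0
  | m + 1, 0, c => ∑ g ∈ Finset.range (c.length + 1),
      if (c.take g).all id then W m 0 (ins c g) else 0
  | m + 1, u + 1, c => ∑ g ∈ Finset.range (c.length + 1),
      if (c.take g).all id then W m (u + 1) (ins c g) else W m u (ins c g)

/-- Number of leading `true`s. -/
def lead (c : List Bool) : ℕ := (c.takeWhile id).length

/-- Number of all-lucky continuations. -/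
def L : ℕ → ℕ → ℕ
  | 0, _ => 1
  | m + 1, a => ∑ b ∈ Finset.range (a + 1), L m (b + 1)

/-- Number of continuations with one unlucky insertion (first run `a`, second run `b`,
length `l`). -/
def G : ℕ → ℕ → ℕ → ℕ → ℕ
  | 0, _, _, _ => 0
  | m + 1, a, b, l => (∑ g ∈ Finset.range (a + 1), G m (g + 1) (a - g) (l + 2)) +
      (∑ c ∈ Finset.range b, L m (a + 1 + c)) + (l - a - b) * L m (a + b + 1)

/-- Stirling permutations of order `n + 1` arise by inserting `n+1, n+1`. -/
def StStruct : Prop := ∀ (n : ℕ) (w : List ℕ), IsStirling (n + 1) w ↔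
  ∃ (w' : List ℕ) (g : ℕ), IsStirling n w' ∧ g ≤ 2 * n ∧ w = put (n + 1) g w'

def StLen : Prop := ∀ (n : ℕ) (w : List ℕ), IsStirling n w → w.length = 2 * n

def StInj : Prop := ∀ (n : ℕ) (w w' : List ℕ) (g g' : ℕ), IsStirling n w → IsStirling n w' →
  g ≤ 2 * n → g' ≤ 2 * n → put (n + 1) g w = put (n + 1) g' w' → w = w' ∧ g = g'

def StCode : Prop := ∀ (n : ℕ) (w : List ℕ) (g : ℕ), (∀ p ∈ w, p ≤ n) → g ≤ w.length →
  code (n + 1) ∅ (put (n + 1) g w) = ins (code n ∅ w) g

def StLucky : Prop := ∀ (n : ℕ) (w : List ℕ) (g : ℕ), (∀ p ∈ w, p ≤ n) → g ≤ w.length →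
  lucky ∅ (put (n + 1) g w) = lucky ∅ w + (if ((code n ∅ w).take g).all id then 1 else 0)

/-- The count of Stirling permutations with `u` unlucky letters. -/
def StEnum : Prop := ∀ n u : ℕ,
  {w : List ℕ | IsStirling n w ∧ lucky ∅ w + u = n}.ncard = W n u []

def StLuck : Prop := ∀ (m : ℕ) (c : List Bool), W m 0 c = L m (lead c)

def StOne : Prop := ∀ m : ℕ, W (m + 1) 1 [] = G m 1 0 2

def StAlg : Prop := ∀ n : ℕ, 8 * G n 1 0 2 + 4 * (n + 2) * (2 * (n + 1)).choose (n + 1) =
  (n + 4) * 4 ^ (n + 1)

end Pool.Agent.K7.H69.LC
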